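import Pool.Agent.Lib.MP_533d58_pr.Bridge
import Pool.Agent.Lib.MP_533d58_pr.VillainGood

namespace Pool.Agent.Results.MP_533d58_pr.Villain

open Pool.Agent.Lib.MP_533d58_pr
open scoped unitInterval

/-- Q1: the BKT critical inverse temperature of the Villain model on bond percolation is a
continuous function of `p` on `(0, 1]`, hence on `(1/2, 1]`, with values in `[0, ∞]`. -/
theorem result : ContinuousOn (betaC villain) {p : I | 0 < (p : ℝ)} := by
  intro p hp
  refine (continuousAt_betaC good_villain (fun β r => ?_) hp).continuousWithinAt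
  unfold vilW villain
  by_cases h : (0 : ℝ) < β
  · rw [dif_pos h, if_neg h.ne', vilC_coe]
    rfl
  · have : (β : ℝ) = 0 := le_antisymm (not_lt.1 h) β.coe_nonneg
    rw [dif_neg h, if_pos this]
    rfl

end Pool.Agent.Results.MP_533d58_pr.Villain
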