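import Pool.Agent.Lib.MP_533d58_pr.Bridge
import Pool.Agent.Lib.MP_533d58_pr.XYGood

namespace Pool.Agent.Results.MP_533d58_pr.XY

open Pool.Agent.Lib.MP_533d58_pr
open scoped unitInterval

/-- Q2: the BKT critical inverse temperature of the XY model on bond percolation is a
continuous function of `p` on `(0, 1]`, hence on `(1/2, 1]`, with values in `[0, ∞]`. -/
theorem result : ContinuousOn (betaC xy) {p : I | 0 < (p : ℝ)} := by
  intro p hp
  exact (continuousAt_betaC good_xy (fun β r => rfl) hp).continuousWithinAt

end Pool.Agent.Results.MP_533d58_pr.XY
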